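import Pool.Agent.H.MP_33509c_nt.U2.LoLim
import Pool.Agent.H.MP_33509c_nt.U2.UpLim

/-!
The triple divisor correlation `S(x) = sum_(n <= x) d(n) d(n+1) d(n+2)`: let `B(x)` be the part of the sum
in which the three divisors are balanced, i.e. the number of the triples of divisors `a`, `b`, `c` of `n`,
`n + 1`, `n + 2` with `min(a, n/a) min(b, (n+1)/b) min(c, (n+2)/c) > x`. Then `S(x) - B(x)` is asymptotic
to `(5/6) K x (log x)^3`, where `K = (11/8) prod_p (1-1/p)^2 (1+2/p)` is the constant of the expected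
asymptotic formula `S(x) ~ K x (log x)^3`.
-/

set_option autoImplicit false

namespace Pool.Agent.Results.MP_33509c_nt.BalancedDivisors

open Filter Topology

/-- `S(x)`: the sum of `d(n) d(n+1) d(n+2)` over the positive integers `n <= x`. -/
noncomputable def S (x : ℝ) : ℝ :=
  ∑ n ∈ Finset.Icc 1 ⌊x⌋₊,
    ((n.divisors.card : ℝ) * ((n + 1).divisors.card : ℝ) * ((n + 2).divisors.card : ℝ))

/-- `B(x)`: the number of the positive integers `n <= x` together with divisors `a` of `n`, `b` of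
`n + 1`, `c` of `n + 2` such that `min(a, n/a) min(b, (n+1)/b) min(c, (n+2)/c) > x`. -/
noncomputable def B (x : ℝ) : ℝ :=
  ∑ n ∈ Finset.Icc 1 ⌊x⌋₊,
    ({t : ℕ × ℕ × ℕ | t.1 ∣ n ∧ t.2.1 ∣ n + 1 ∧ t.2.2 ∣ n + 2 ∧
      x < ((min t.1 (n / t.1) * min t.2.1 ((n + 1) / t.2.1) * min t.2.2 ((n + 2) / t.2.2) : ℕ) : ℝ)
      }.ncard : ℝ)

/-- The local factor at `p`. -/
noncomputable def factor (p : ℕ) : ℝ := (1 - 1 / (p : ℝ)) ^ 2 * (1 + 2 / (p : ℝ))

/-- The constant of the expected asymptotic formula. -/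
noncomputable def K : ℝ := 11 / 8 * ∏' p : Nat.Primes, factor p

theorem sub_eq {x : ℝ} (hx : 0 ≤ x) : S x - B x = (MP33509c.SM ⌊x⌋₊ : ℝ) := by
  classical
  unfold S B MP33509c.SM
  rw [Nat.cast_sum, ← Finset.sum_sub_distrib]
  refine Finset.sum_congr rfl fun n hn => ?_
  rw [Finset.mem_Icc] at hn
  have h1 : {t : ℕ × ℕ × ℕ | t.1 ∣ n ∧ t.2.1 ∣ n + 1 ∧ t.2.2 ∣ n + 2 ∧
      x < ((min t.1 (n / t.1) * min t.2.1 ((n + 1) / t.2.1) * min t.2.2 ((n + 2) / t.2.2) : ℕ) : ℝ)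
      } = ↑((MP33509c.trip n).filter fun t => ¬ MP33509c.pm n t ≤ ⌊x⌋₊) := by
    ext t
    rw [Finset.coe_filter]
    simp only [Set.mem_setOf_eq, MP33509c.trip, Finset.mem_product, Nat.mem_divisors,
      MP33509c.pm, MP33509c.dm, not_le, Nat.floor_lt hx]
    constructor
    · rintro ⟨a1, a2, a3, a4⟩
      exact ⟨⟨⟨a1, by omega⟩, ⟨a2, by omega⟩, ⟨a3, by omega⟩⟩, a4⟩
    · rintro ⟨⟨⟨a1, -⟩, ⟨a2, -⟩, ⟨a3, -⟩⟩, a4⟩
      exact ⟨a1, a2, a3, a4⟩
  rw [h1, Set.ncard_coe_finset]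
  have h2 := Finset.card_filter_add_card_filter_not (s := MP33509c.trip n)
    (fun t => MP33509c.pm n t ≤ ⌊x⌋₊)
  have h3 : (MP33509c.trip n).card = n.divisors.card * ((n + 1).divisors.card *
      (n + 2).divisors.card) := by
    rw [MP33509c.trip, Finset.card_product, Finset.card_product]
  rw [h3] at h2
  have h4 : ((MP33509c.sm ⌊x⌋₊ n : ℕ) : ℝ) +
      (((MP33509c.trip n).filter fun t => ¬ MP33509c.pm n t ≤ ⌊x⌋₊).card : ℝ) =
      (n.divisors.card : ℝ) * (((n + 1).divisors.card : ℝ) * ((n + 2).divisors.card : ℝ)) := by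
    exact_mod_cast h2
  linarith

theorem B_nonneg (x : ℝ) : 0 ≤ B x := Finset.sum_nonneg fun _ _ => Nat.cast_nonneg _

theorem main : Tendsto (fun x : ℝ => (S x - B x) / (x * Real.log x ^ 3)) atTop
    (𝓝 (5 / 6 * K)) := by
  have hK : 0 < K := MP33509c.KK_pos
  rw [Metric.tendsto_atTop]
  intro ε hε
  have hδ : 0 < ε / (2 * K) := by positivity
  obtain ⟨x₀, hx₀⟩ := eventually_atTop.1 ((MP33509c.low_lim _ hδ).and
    ((MP33509c.up_lim _ hδ).and (eventually_gt_atTop (1 : ℝ))))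
  refine ⟨x₀, fun x hx => ?_⟩
  obtain ⟨h1, h2, h3⟩ := hx₀ x hx
  have hx0 : 0 < x := by linarith
  have hL : 0 < x * Real.log x ^ 3 := mul_pos hx0 (pow_pos (Real.log_pos h3) 3)
  rw [← sub_eq hx0.le] at h1 h2
  have e1 : ε / (2 * K) * K = ε / 2 := by field_simp
  have h1' : (5 / 6 * K - ε / 2) * (x * Real.log x ^ 3) ≤ S x - B x := by
    refine le_trans (le_of_eq ?_) h1
    show _ = (5 / 6 - ε / (2 * K)) * K * x * Real.log x ^ 3
    rw [sub_mul (5 / 6), e1]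
    ring
  have h2' : S x - B x ≤ (5 / 6 * K + ε / 2) * (x * Real.log x ^ 3) := by
    refine le_trans h2 (le_of_eq ?_)
    show (5 / 6 + ε / (2 * K)) * K * x * Real.log x ^ 3 = _
    rw [add_mul (5 / 6), e1]
    ring
  rw [Real.dist_eq, abs_lt]
  constructor
  · have := (le_div_iff₀ hL).2 h1'
    linarith
  · have := (div_le_iff₀ hL).2 h2'
    linarith

/-- The product over the primes converges, `K > 0`, and `S(x) - B(x) ~ (5/6) K x (log x)^3`. So
`S(x) / (x (log x)^3)` tends to `κ` if and only if `B(x) / (x (log x)^3)` tends to `κ - (5/6) K`, and for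
every `eps > 0` one has `S(x) >= (5/6 - eps) K x (log x)^3` for all sufficiently large real `x`. -/
theorem result :
    Multipliable (fun p : Nat.Primes => factor p) ∧ 0 < K ∧
    Tendsto (fun x : ℝ => (S x - B x) / (x * Real.log x ^ 3)) atTop (𝓝 (5 / 6 * K)) ∧
    (∀ κ : ℝ, Tendsto (fun x : ℝ => S x / (x * Real.log x ^ 3)) atTop (𝓝 κ) ↔
      Tendsto (fun x : ℝ => B x / (x * Real.log x ^ 3)) atTop (𝓝 (κ - 5 / 6 * K))) ∧
    ∀ ε : ℝ, 0 < ε → ∃ X₀ : ℝ, ∀ x : ℝ, X₀ ≤ x →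
      (5 / 6 - ε) * K * x * Real.log x ^ 3 ≤ S x := by
  refine ⟨MP33509c.multipliable_fp, MP33509c.KK_pos, main, fun κ => ⟨fun h => ?_, fun h => ?_⟩,
    fun ε hε => ?_⟩
  · refine (h.sub main).congr fun x => ?_
    rw [← sub_div]
    ring_nf
  · have h1 := h.add main
    rw [sub_add_cancel] at h1
    refine h1.congr fun x => ?_
    rw [← add_div]
    ring_nf
  · obtain ⟨X₀, hX₀⟩ := eventually_atTop.1 ((MP33509c.low_lim ε hε).and
      (eventually_ge_atTop (0 : ℝ)))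
    refine ⟨X₀, fun x hx => ?_⟩
    obtain ⟨h1, h2⟩ := hX₀ x hx
    have h3 := sub_eq h2
    have h4 := B_nonneg x
    refine le_trans h1 ?_
    linarith

end Pool.Agent.Results.MP_33509c_nt.BalancedDivisors
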